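import Pool.Agent.NH38.Fork.GMain
import Pool.Agent.NH38.Fork.UG

/-!
Critical bond percolation on `ℤ²` (`p = 1/2`): Cardy's formula in the forked channels, a family of
domains with two real parameters: a half-infinite strip (going down) of width `α + γ + β`, with two
half-infinite strips of widths `α` (flush on the left) and `β` (flush on the right) on top of it,
separated by a slit of width `γ > 0`; together with the conformal maps of these domains, and in
bounded forked domains (Jordan polygons) up to an explicit error exponentially small in the height.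

Coordinates: the vertex `(u,v)` of `ℤ²` at mesh `δ` sits at `X + iY`, `X = δ (u - v)`,
`Y = δ (u + v)` (rotation by 45 degrees).
-/

namespace Pool.Agent.Results.MP_35f495_pr.CardyForkedChannels

open MeasureTheory Filter Topology Set

/-- edges of `ℤ²`: `(u,v,false)` joins `(u,v)` and `(u+1,v)`; `(u,v,true)` joins `(u,v)` and
`(u,v+1)`. -/
abbrev Edge := ℤ × ℤ × Bool

/-- configurations (`true` = open) -/
abbrev Conf := Edge → Bool

/-- `x` and `y` are the two ends of an open edge -/
def OpenAdj (ω : Conf) (x y : ℤ × ℤ) : Prop :=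
  (y = (x.1 + 1, x.2) ∧ ω (x.1, x.2, false) = true) ∨
  (x = (y.1 + 1, y.2) ∧ ω (y.1, y.2, false) = true) ∨
  (y = (x.1, x.2 + 1) ∧ ω (x.1, x.2, true) = true) ∨
  (x = (y.1, y.2 + 1) ∧ ω (y.1, y.2, true) = true)

/-- bond percolation at `p = 1/2`: independent fair coins on the edges -/
noncomputable def perc : Measure Conf :=
  Measure.infinitePi (fun _ : Edge => (PMF.uniformOfFintype Bool).toMeasure)

/-- The column of the vertex `(u,v)` is `u - v`, its height is `u + v`. Open edges of the forked
channel: both ends have their column in `[-a, m+b]`; the edges with both ends at height `≥ 0` and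
both ends in the columns `[0, m]` (the slit) are removed. -/
def FAdj (a m b : ℕ) (ω : Conf) (x y : ℤ × ℤ) : Prop :=
  OpenAdj ω x y ∧ -(a:ℤ) ≤ x.1 - x.2 ∧ x.1 - x.2 ≤ ((m+b : ℕ) : ℤ) ∧
    -(a:ℤ) ≤ y.1 - y.2 ∧ y.1 - y.2 ≤ ((m+b : ℕ) : ℤ) ∧
    ¬ (0 ≤ x.1 + x.2 ∧ 0 ≤ y.1 + y.2 ∧ 0 ≤ x.1 - x.2 ∧ x.1 - x.2 ≤ m ∧
      0 ≤ y.1 - y.2 ∧ y.1 - y.2 ≤ m)

/-- There is an open path of the forked channel from a vertex of the inner wall of the left arm
(column `0`, height `≥ 0`) to a vertex of the right wall (column `m + b`). -/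
def Cross (a m b : ℕ) : Set Conf :=
  {ω | ∃ x y : ℤ × ℤ, x.1 - x.2 = 0 ∧ 0 ≤ x.1 + x.2 ∧ y.1 - y.2 = ((m+b : ℕ) : ℤ) ∧
    Relation.ReflTransGen (FAdj a m b ω) x y}

/-- The same in the bounded forked domain (all heights in `[-H,H]`). -/
def CrossH (a m b H : ℕ) : Set Conf :=
  {ω | ∃ x y : ℤ × ℤ, x.1 - x.2 = 0 ∧ 0 ≤ x.1 + x.2 ∧ x.1 + x.2 ≤ H ∧
    y.1 - y.2 = ((m+b : ℕ) : ℤ) ∧
    Relation.ReflTransGen (fun p r => FAdj a m b ω p r ∧ |p.1 + p.2| ≤ H ∧ |r.1 + r.2| ≤ H) x y}

/-- Cardy's function: the normalised primitive of `(t(1-t))^(-2/3)` -/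
noncomputable def cardy (x : ℝ) : ℝ :=
  (∫ t in (0:ℝ)..x, (t*(1-t))^(-(2:ℝ)/3)) / ∫ t in (0:ℝ)..1, (t*(1-t))^(-(2:ℝ)/3)

/-- the forked channel: the strip `-α < X < γ + β` without the slit `{0 ≤ X ≤ γ, Y ≥ 0}` -/
def Dom (α γ β : ℝ) : Set ℂ := {w | -α < w.re ∧ w.re < γ + β ∧ (0 ≤ w.re → w.re ≤ γ → w.im < 0)}

/-- `f` is an orientation reversing conformal map of the upper half-plane onto the forked channel,
with the boundary correspondence: left wall, inner wall of the left arm, left corner of the slit,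
ledge (bottom of the slit), right corner of the slit, inner wall of the right arm, right wall =
`(-∞,0)`, `(0,x)`, `x`, `(x,x')`, `x'`, `(x',1)`, `(1,∞)` (`0`, `1` and `∞` correspond to the ends
of the left arm, of the right arm and of the lower strip). So the cross-ratio of (inner wall of the
left arm, right wall) is the cross-ratio of `(0,x)`, `(1,∞)`, which is `x`. -/
structure Uniformizes (α γ β x x' : ℝ) (f : ℂ → ℂ) : Prop where
  /-- the complex conjugate of `f` is holomorphic in the upper half-plane -/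
  holo : DifferentiableOn ℂ (fun z => (starRingEnd ℂ) (f z)) {z | 0 < z.im}
  /-- `f` is a bijection of the upper half-plane onto the forked channel -/
  bij : BijOn f {z | 0 < z.im} (Dom α γ β)
  /-- `f` is continuous up to the boundary (without `0` and `1`) -/
  cont : ContinuousOn f {z : ℂ | 0 ≤ z.im ∧ z ≠ 0 ∧ z ≠ 1}
  /-- `(-∞,0)` is mapped to the left wall -/
  leftWall : BijOn (fun t : ℝ => f t) (Iio 0) {w | w.re = -α}
  /-- `(0,x)` is mapped to the inner wall of the left arm -/
  innerWall : BijOn (fun t : ℝ => f t) (Ioo 0 x) {w | w.re = 0 ∧ 0 < w.im}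
  /-- `x` is mapped to the left corner -/
  corner : f (x : ℂ) = 0
  /-- `(x,x')` is mapped to the ledge -/
  ledge : BijOn (fun t : ℝ => f t) (Ioo x x') {w | w.im = 0 ∧ 0 < w.re ∧ w.re < γ}
  /-- `x'` is mapped to the right corner -/
  corner' : f (x' : ℂ) = (γ : ℂ)
  /-- `(x',1)` is mapped to the inner wall of the right arm -/
  innerWall' : BijOn (fun t : ℝ => f t) (Ioo x' 1) {w | w.re = γ ∧ 0 < w.im}
  /-- `(1,∞)` is mapped to the right wall -/
  rightWall : BijOn (fun t : ℝ => f t) (Ioi 1) {w | w.re = γ + β}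

open Pool.Agent.NH38.Fork in
/-- Cardy's formula in the forked channels. `α, γ, β > 0` are the widths of the left arm, of the slit
and of the right arm.
(1) there are `0 < x < x' < 1`, given by `x x' = (α/(α+γ+β))²`, `(1-x)(1-x') = (β/(α+γ+β))²`, and a
conformal map of the upper half-plane onto the channel, with cross-ratio `x`; (2) the probability of an
open path from the inner wall of the left arm to the right wall tends to `cardy x` as the mesh `δ`
tends to `0`; (3) bounded forked domains, all widths; (4) their scaling limit. -/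
theorem result :
    (∀ α γ β : ℝ, 0 < α → 0 < γ → 0 < β → ∃ x x' : ℝ, 0 < x ∧ x < x' ∧ x' < 1 ∧
      x * x' = (α / (α + γ + β))^2 ∧ (1 - x) * (1 - x') = (β / (α + γ + β))^2 ∧
      (∃ f : ℂ → ℂ, Uniformizes α γ β x x' f) ∧
      (∀ (δ : ℕ → ℝ) (a m b : ℕ → ℕ), (∀ n, 0 < δ n) → Tendsto δ atTop (𝓝 0) →
        Tendsto (fun n => δ n * a n) atTop (𝓝 α) → Tendsto (fun n => δ n * m n) atTop (𝓝 γ) →
        Tendsto (fun n => δ n * b n) atTop (𝓝 β) →
        Tendsto (fun n => perc.real (Cross (a n) (m n) (b n))) atTop (𝓝 (cardy x))) ∧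
      (∀ (δ : ℕ → ℝ) (a m b H : ℕ → ℕ), (∀ n, 0 < δ n) → Tendsto δ atTop (𝓝 0) →
        Tendsto (fun n => δ n * a n) atTop (𝓝 α) → Tendsto (fun n => δ n * m n) atTop (𝓝 γ) →
        Tendsto (fun n => δ n * b n) atTop (𝓝 β) → Tendsto (fun n => δ n * H n) atTop atTop →
        Tendsto (fun n => perc.real (CrossH (a n) (m n) (b n) (H n))) atTop (𝓝 (cardy x)))) ∧
    (∀ a m b H : ℕ, 1 ≤ m →
      |perc.real (CrossH a m b H) - perc.real (Cross a m b)| ≤
        2 * (1 - (1/2 : ℝ)^188)^(H / (100 * (a + m + b)))) := by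
  have key : ∀ a m b H : ℕ, 1 ≤ m →
      |perc.real (CrossH a m b H) - perc.real (Cross a m b)| ≤
        2 * (1 - (1/2 : ℝ)^188)^(H / (100 * (a + m + b))) :=
    fun a m b H hm => fork_trunc hm H
  refine ⟨fun α γ β hα hγ hβ => ?_, key⟩
  have hN : 0 < α + γ + β := by positivity
  set A : ℝ := (α / (α + γ + β))^2 with hA
  set B : ℝ := (β / (α + γ + β))^2 with hB
  have hr : 0 < α / (α + γ + β) := by positivity
  have hs : 0 < β / (α + γ + β) := by positivity
  have hrs : α / (α + γ + β) + β / (α + γ + β) < 1 := by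
    rw [← add_div, div_lt_one hN]; linarith
  have hA0 : 0 < A := by positivity
  have hB0 : 0 < B := by positivity
  -- the discriminant
  have hd : 0 < (1 + A - B)^2 - 4*A := by
    have e : (1 + A - B)^2 - 4*A = (1 - (α / (α + γ + β) + β / (α + γ + β))) *
        (1 + (α / (α + γ + β) + β / (α + γ + β))) *
        ((1 - (α / (α + γ + β) - β / (α + γ + β))) *
        (1 + (α / (α + γ + β) - β / (α + γ + β)))) := by
      rw [hA, hB]; ring
    rw [e]
    have h1 : 0 < 1 - (α / (α + γ + β) + β / (α + γ + β)) := by linarith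
    have h2 : 0 < 1 + (α / (α + γ + β) + β / (α + γ + β)) := by linarith
    have h3 : 0 < 1 - (α / (α + γ + β) - β / (α + γ + β)) := by linarith
    have h4 : 0 < 1 + (α / (α + γ + β) - β / (α + γ + β)) := by linarith
    positivity
  have hsq : rr A B * rr A B = (1 + A - B)^2 - 4*A := Real.mul_self_sqrt hd.le
  have hrr : 0 < rr A B := Real.sqrt_pos.mpr hd
  have hprod : x1 A B * x2 A B = A := by unfold x1 x2; linear_combination (-1/4) * hsq
  have hprod' : (1 - x1 A B) * (1 - x2 A B) = B := by unfold x1 x2; linear_combination (-1/4) * hsq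
  have hlt : x1 A B < x2 A B := by unfold x1 x2; linarith
  have hsum : x1 A B + x2 A B = 1 + A - B := by unfold x1 x2; ring
  have hA1 : A < 1 := by
    rw [hA]; exact pow_lt_one₀ hr.le (by linarith) two_ne_zero
  have hB1 : B < 1 := by
    rw [hB]; exact pow_lt_one₀ hs.le (by linarith) two_ne_zero
  have hx2 : 0 < x2 A B := by
    have : 0 < 1 + A - B := by linarith
    unfold x2; linarith
  have hx1 : 0 < x1 A B := by
    by_contra hc
    push Not at hc
    have := mul_nonpos_of_nonpos_of_nonneg hc hx2.le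
    linarith
  have h1x : 0 < 1 - x1 A B := by
    have : 0 < 1 - A + B := by linarith
    unfold x1; linarith
  have hx2' : x2 A B < 1 := by
    by_contra hc
    push Not at hc
    have := mul_nonpos_of_nonneg_of_nonpos h1x.le (by linarith : 1 - x2 A B ≤ 0)
    linarith
  refine ⟨x1 A B, x2 A B, hx1, hlt, hx2', hprod, hprod', ?_, ?_, ?_⟩
  · obtain ⟨f, hf⟩ := t_UG α γ β hα hγ hβ
    exact ⟨f, ⟨hf.holo, hf.bij, hf.cont, hf.leftWall, hf.innerWall, hf.corner, hf.ledge,
      hf.corner', hf.innerWall', hf.rightWall⟩⟩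
  · exact a_LimG α γ β hα hγ hβ
  · intro δ a m b H hδ hδ0 ha hm hb hH
    have h1 := a_LimG α γ β hα hγ hβ δ a m b hδ hδ0 ha hm hb
    have hinv : Tendsto (fun n => (δ n)⁻¹) atTop atTop :=
      (tendsto_nhdsWithin_iff.mpr ⟨hδ0, Eventually.of_forall hδ⟩).inv_tendsto_nhdsGT_zero
    have em : ∀ᶠ n in atTop, 1 ≤ m n := by
      have : Tendsto (fun n => (m n : ℝ)) atTop atTop := by
        refine (hinv.atTop_mul_pos hγ hm).congr fun n => ?_
        rw [← mul_assoc, inv_mul_cancel₀ (hδ n).ne', one_mul]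
      filter_upwards [this.eventually_ge_atTop 1] with n hn
      exact_mod_cast hn
    -- the ratio `H / (100 (a+m+b))` tends to infinity
    have hr : Tendsto (fun n => H n / (100 * (a n + m n + b n))) atTop atTop := by
      have hs : Tendsto (fun n => δ n * ((a n : ℝ) + m n + b n)) atTop (𝓝 (α + γ + β)) :=
        ((ha.add hm).add hb).congr fun n => by ring
      have hp : ∀ᶠ n in atTop, δ n * ((a n : ℝ) + m n + b n) < α + γ + β + 1 :=
        hs.eventually_lt_const (by linarith)
      rw [tendsto_atTop]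
      intro M
      filter_upwards [hp, em, hH.eventually_ge_atTop (100 * (M:ℝ) * (α + γ + β + 1))]
        with n h1 h2 h3
      have hM : (0:ℝ) ≤ M := Nat.cast_nonneg M
      rw [Nat.le_div_iff_mul_le (by omega)]
      have h4 : δ n * ((M:ℝ) * (100 * ((a n : ℝ) + m n + b n))) ≤ δ n * H n := by
        have : δ n * ((M:ℝ) * (100 * ((a n : ℝ) + m n + b n))) =
          100 * (M:ℝ) * (δ n * ((a n : ℝ) + m n + b n)) := by ring
        rw [this]
        exact (mul_le_mul_of_nonneg_left h1.le (by positivity)).trans h3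
      have h5 := le_of_mul_le_mul_left h4 (hδ n)
      exact_mod_cast h5
    have hz : Tendsto (fun n => 2 * (1 - (1/2 : ℝ)^188)^(H n / (100 * (a n + m n + b n)))) atTop
        (𝓝 0) := by
      have h188 : ((1:ℝ)/2)^188 < 1 := pow_lt_one₀ (by norm_num) (by norm_num) (by norm_num)
      have h188' : (0:ℝ) < (1/2:ℝ)^188 := by positivity
      have := ((tendsto_pow_atTop_nhds_zero_of_lt_one (r := 1 - (1/2 : ℝ)^188) (by linarith)
        (by linarith)).comp hr).const_mul 2
      simpa using this
    have hd : Tendsto (fun n => perc.real (CrossH (a n) (m n) (b n) (H n)) -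
        perc.real (Cross (a n) (m n) (b n))) atTop (𝓝 0) := by
      apply squeeze_zero_norm' _ hz
      filter_upwards [em] with n hn
      exact key _ _ _ _ hn
    have := h1.add hd
    rw [add_zero] at this
    refine this.congr fun n => ?_
    change Pool.Agent.H988R2.Perc.perc.real (FCross (a n) (m n) (b n)) +
      (perc.real (CrossH (a n) (m n) (b n) (H n)) -
        Pool.Agent.H988R2.Perc.perc.real (FCross (a n) (m n) (b n))) = _
    ring

end Pool.Agent.Results.MP_35f495_pr.CardyForkedChannels
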