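import Pool.Agent.NH38.Fork.GMain
import Pool.Agent.NH38.Fork.R1
import Pool.Agent.NH38.Fork.R2
import Pool.Agent.NH38.Fork.R3
import Pool.Agent.NH38.Fork.R4
import Pool.Agent.NH38.Fork.R5
import Pool.Agent.NH38.Fork.R6
import Pool.Agent.NH38.Fork.R7

/-!
Critical bond percolation on `ℤ²` (`p = 1/2`): the sharp rate of convergence in Cardy's formula in
the forked channels. A forked channel is a half-infinite strip (going down) of width `α + γ + β`,
with two half-infinite strips of widths `α` (flush on the left) and `β` (flush on the right) on top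
of it, separated by a slit of width `γ > 0`. The error is exactly of order `δ^(2/3)` in the mesh `δ`,
and its coefficient is conformally covariant. The same methods give the one-arm function at the
corner, when the left arm has a fixed number of columns.

Coordinates: the vertex `(u,v)` of `ℤ²` at mesh `δ` sits at `X + iY`, `X = δ (u - v)`,
`Y = δ (u + v)` (rotation by 45 degrees).
-/

namespace Pool.Agent.Results.MP_35f495_pr.CardySharpRate

open MeasureTheory Filter Topology Set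

/-- edges of `ℤ²`: `(u,v,false)` joins `(u,v)` and `(u+1,v)`; `(u,v,true)` joins `(u,v)` and
`(u,v+1)`. -/
abbrev Edge := ℤ × ℤ × Bool

/-- configurations (`true` = open) -/
abbrev Conf := Edge → Bool

/-- `x` and `y` are the two ends of an open edge -/
def OpenAdj (ω : Conf) (x y : ℤ × ℤ) : Prop :=
  (y = (x.1 + 1, x.2) ∧ ω (x.1, x.2, false) = true) ∨
  (x = (y.1 + 1, y.2) ∧ ω (y.1, y.2, false) = true) ∨
  (y = (x.1, x.2 + 1) ∧ ω (x.1, x.2, true) = true) ∨
  (x = (y.1, y.2 + 1) ∧ ω (y.1, y.2, true) = true)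

/-- bond percolation at `p = 1/2`: independent fair coins on the edges -/
noncomputable def perc : Measure Conf :=
  Measure.infinitePi (fun _ : Edge => (PMF.uniformOfFintype Bool).toMeasure)

/-- The column of the vertex `(u,v)` is `u - v`, its height is `u + v`. Open edges of the forked
channel: both ends have their column in `[-a, m+b]`; the edges with both ends at height `≥ 0` and
both ends in the columns `[0, m]` (the slit) are removed. -/
def FAdj (a m b : ℕ) (ω : Conf) (x y : ℤ × ℤ) : Prop :=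
  OpenAdj ω x y ∧ -(a:ℤ) ≤ x.1 - x.2 ∧ x.1 - x.2 ≤ ((m+b : ℕ) : ℤ) ∧
    -(a:ℤ) ≤ y.1 - y.2 ∧ y.1 - y.2 ≤ ((m+b : ℕ) : ℤ) ∧
    ¬ (0 ≤ x.1 + x.2 ∧ 0 ≤ y.1 + y.2 ∧ 0 ≤ x.1 - x.2 ∧ x.1 - x.2 ≤ m ∧
      0 ≤ y.1 - y.2 ∧ y.1 - y.2 ≤ m)

/-- There is an open path of the forked channel from a vertex of the inner wall of the left arm
(column `0`, height `≥ 0`) to a vertex of the right wall (column `m + b`). -/
def Cross (a m b : ℕ) : Set Conf :=
  {ω | ∃ x y : ℤ × ℤ, x.1 - x.2 = 0 ∧ 0 ≤ x.1 + x.2 ∧ y.1 - y.2 = ((m+b : ℕ) : ℤ) ∧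
    Relation.ReflTransGen (FAdj a m b ω) x y}

/-- Cardy's function: the normalised primitive of `(t(1-t))^(-2/3)` -/
noncomputable def cardy (x : ℝ) : ℝ :=
  (∫ t in (0:ℝ)..x, (t*(1-t))^(-(2:ℝ)/3)) / ∫ t in (0:ℝ)..1, (t*(1-t))^(-(2:ℝ)/3)

/-- the forked channel: the strip `-α < X < γ + β` without the slit `{0 ≤ X ≤ γ, Y ≥ 0}` -/
def Dom (α γ β : ℝ) : Set ℂ := {w | -α < w.re ∧ w.re < γ + β ∧ (0 ≤ w.re → w.re ≤ γ → w.im < 0)}

/-- `f` is an orientation reversing conformal map of the upper half-plane onto the forked channel,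
with the boundary correspondence: left wall, inner wall of the left arm, left corner of the slit,
ledge (bottom of the slit), right corner of the slit, inner wall of the right arm, right wall =
`(-∞,0)`, `(0,x)`, `x`, `(x,x')`, `x'`, `(x',1)`, `(1,∞)`. So the cross-ratio of (inner wall of the
left arm, right wall) is `x`. -/
structure Uniformizes (α γ β x x' : ℝ) (f : ℂ → ℂ) : Prop where
  /-- the complex conjugate of `f` is holomorphic in the upper half-plane -/
  holo : DifferentiableOn ℂ (fun z => (starRingEnd ℂ) (f z)) {z | 0 < z.im}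
  /-- `f` is a bijection of the upper half-plane onto the forked channel -/
  bij : BijOn f {z | 0 < z.im} (Dom α γ β)
  /-- `f` is continuous up to the boundary (without `0` and `1`) -/
  cont : ContinuousOn f {z : ℂ | 0 ≤ z.im ∧ z ≠ 0 ∧ z ≠ 1}
  /-- `(-∞,0)` is mapped to the left wall -/
  leftWall : BijOn (fun t : ℝ => f t) (Iio 0) {w | w.re = -α}
  /-- `(0,x)` is mapped to the inner wall of the left arm -/
  innerWall : BijOn (fun t : ℝ => f t) (Ioo 0 x) {w | w.re = 0 ∧ 0 < w.im}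
  /-- `x` is mapped to the left corner of the slit -/
  corner : f (x : ℂ) = 0
  /-- `(x,x')` is mapped to the ledge -/
  ledge : BijOn (fun t : ℝ => f t) (Ioo x x') {w | w.im = 0 ∧ 0 < w.re ∧ w.re < γ}
  /-- `x'` is mapped to the right corner of the slit -/
  corner' : f (x' : ℂ) = (γ : ℂ)
  /-- `(x',1)` is mapped to the inner wall of the right arm -/
  innerWall' : BijOn (fun t : ℝ => f t) (Ioo x' 1) {w | w.re = γ ∧ 0 < w.im}
  /-- `(1,∞)` is mapped to the right wall -/
  rightWall : BijOn (fun t : ℝ => f t) (Ioi 1) {w | w.re = γ + β}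

/-- the lattice constant `2^(-1/3) Γ(5/6) / (Γ(1/2) Γ(2/3))` -/
noncomputable def cR : ℝ := 2^(-(1:ℝ)/3) * (Real.Gamma (5/6) / (Real.Gamma (1/2) * Real.Gamma (2/3)))

open Pool.Agent.NH38.Fork in
theorem sv_coeff_zero (a : ℕ) : (sv a).coeff 0 = 1 + kap a ∧ (sv (a+1)).coeff 0 = 1 + kap (a+1) := by
  have hk : ∀ n : ℕ, kap (n+1) = kap n * (((n:ℚ) + 4/3) / (n + 2/3)) := fun n => by
    unfold kap; rw [Finset.prod_range_succ]
  induction a with
  | zero =>
    have h0 : kap 0 = 1 := by simp [kap]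
    have h1 : kap 1 = 2 := by rw [hk 0, h0]; norm_num
    refine ⟨?_, ?_⟩
    · rw [h0]; simp only [sv, pv, Polynomial.coeff_C_zero]; norm_num
    · rw [zero_add, h1]; simp only [sv, pv, Polynomial.coeff_C_zero]; norm_num
  | succ n ih =>
    obtain ⟨h1, h2⟩ := ih
    refine ⟨h2, ?_⟩
    have hi : ((if Even n then (1:Polynomial ℚ) + Polynomial.X else 1)).coeff 0 = 1 := by
      split_ifs <;> simp
    have e : (sv (n+1+1)).coeff 0 = 1 / (3*(n:ℚ)+5) * ((6*(n:ℚ)+9) * (sv (n+1)).coeff 0 -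
        (3*(n:ℚ)+4) * (sv n).coeff 0) := by
      show (Polynomial.C (1 / (3*(n:ℚ)+5)) * (Polynomial.C (6*(n:ℚ)+9) *
        (if Even n then 1 + Polynomial.X else 1) * pv 2 3 (n+1) -
        Polynomial.C (3*(n:ℚ)+4) * pv 2 3 n)).coeff 0 = _
      rw [Polynomial.mul_coeff_zero, Polynomial.coeff_sub, Polynomial.mul_coeff_zero,
        Polynomial.mul_coeff_zero, Polynomial.mul_coeff_zero, hi, Polynomial.coeff_C_zero,
        Polynomial.coeff_C_zero, Polynomial.coeff_C_zero, mul_one]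
      rfl
    rw [e, h1, h2, hk (n+1), hk n]
    have a1 : (3*(n:ℚ)+5) ≠ 0 := by positivity
    have a2 : ((n:ℚ) + 2/3) ≠ 0 := by positivity
    have a3 : ((n:ℚ) + 1 + 2/3) ≠ 0 := by positivity
    push_cast
    field_simp
    ring

open Pool.Agent.NH38.Fork in
/-- The sharp rate of convergence in Cardy's formula in the forked channels, `α, γ, β > 0` the widths
of the left arm, of the slit and of the right arm.
(1) Let `0 < x < x' < 1` be given by `x x' = (α/(α+γ+β))²`, `(1-x)(1-x') = (β/(α+γ+β))²` and let `f` be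
the conformal map of the upper half-plane onto the channel; `Λ > 0` is its coefficient at the left
corner of the slit, `f(t) ~ Λ (t-x)^(3/2)`. If the lattice widths are within `O(1)` of `α/δ`, `γ/δ`,
`β/δ`, then `(P(Cross) - cardy x) / δ^(2/3)` tends to `cR (2/(3π))^(2/3) (Λ x (1-x))^(-2/3) > 0`.
(2) The one-arm function at the corner: left arm with a fixed odd number `a` of columns:
`P(Cross) / δ^(2/3)` tends to `(1 + ∏_{i<a} (3i+4)/(3i+2)) cR (γ(γ+2β))^(-1/3)`. -/
theorem result :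
    (∀ α γ β : ℝ, 0 < α → 0 < γ → 0 < β → ∃ x x' : ℝ, 0 < x ∧ x < x' ∧ x' < 1 ∧
      x * x' = (α / (α + γ + β))^2 ∧ (1 - x) * (1 - x') = (β / (α + γ + β))^2 ∧
      ∃ (f : ℂ → ℂ) (Λ : ℝ), Uniformizes α γ β x x' f ∧ 0 < Λ ∧
      Tendsto (fun t : ℝ => (f t).re / (t - x)^((3:ℝ)/2)) (𝓝[>] x) (𝓝 Λ) ∧
      ∀ (K : ℝ) (δ : ℕ → ℝ) (a m b : ℕ → ℕ), (∀ n, 0 < δ n) → Tendsto δ atTop (𝓝 0) →
        (∀ n, |δ n * a n - α| ≤ K * δ n) → (∀ n, |δ n * m n - γ| ≤ K * δ n) →
        (∀ n, |δ n * b n - β| ≤ K * δ n) →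
        Tendsto (fun n => (perc.real (Cross (a n) (m n) (b n)) - cardy x) / (δ n)^((2:ℝ)/3)) atTop
          (𝓝 (cR * (2 / (3 * Real.pi))^((2:ℝ)/3) * (Λ * (x * (1 - x)))^(-(2:ℝ)/3)))) ∧
    (∀ (a : ℕ) (γ β : ℝ), Odd a → 0 < γ → 0 ≤ β → ∀ (δ : ℕ → ℝ) (m b : ℕ → ℕ),
      (∀ n, 0 < δ n) → Tendsto δ atTop (𝓝 0) → Tendsto (fun n => δ n * m n) atTop (𝓝 γ) →
      Tendsto (fun n => δ n * b n) atTop (𝓝 β) →
      Tendsto (fun n => perc.real (Cross a (m n) (b n)) / (δ n)^((2:ℝ)/3)) atTop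
        (𝓝 ((1 + ∏ i ∈ Finset.range a, (3 * (i:ℝ) + 4) / (3 * i + 2)) * cR *
          (γ * (γ + 2*β))^(-(1:ℝ)/3)))) := by
  constructor
  · intro α γ β hα hγ hβ
    have hN : 0 < α + γ + β := by positivity
    obtain ⟨f, hf, hL⟩ := t_UGL α γ β hα hγ hβ
    have hRP := t_RateP a_ExactG (t_RateG t_MJ t_pos t_sE t_vE t_KE t_ME (t_F4 t_WI) t_B4 a_FGle)
    set A : ℝ := (α / (α + γ + β))^2 with hA
    set B : ℝ := (β / (α + γ + β))^2 with hB
    have hr : 0 < α / (α + γ + β) := by positivity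
    have hs : 0 < β / (α + γ + β) := by positivity
    have hrs : α / (α + γ + β) + β / (α + γ + β) < 1 := by
      rw [← add_div, div_lt_one hN]; linarith
    have hA0 : 0 < A := by positivity
    have hB0 : 0 < B := by positivity
    -- the discriminant
    have hd : 0 < (1 + A - B)^2 - 4*A := by
      have e : (1 + A - B)^2 - 4*A = (1 - (α / (α + γ + β) + β / (α + γ + β))) *
          (1 + (α / (α + γ + β) + β / (α + γ + β))) *
          ((1 - (α / (α + γ + β) - β / (α + γ + β))) *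
          (1 + (α / (α + γ + β) - β / (α + γ + β)))) := by
        rw [hA, hB]; ring
      rw [e]
      have h1 : 0 < 1 - (α / (α + γ + β) + β / (α + γ + β)) := by linarith
      have h2 : 0 < 1 + (α / (α + γ + β) + β / (α + γ + β)) := by linarith
      have h3 : 0 < 1 - (α / (α + γ + β) - β / (α + γ + β)) := by linarith
      have h4 : 0 < 1 + (α / (α + γ + β) - β / (α + γ + β)) := by linarith
      positivity
    have hsq : rr A B * rr A B = (1 + A - B)^2 - 4*A := Real.mul_self_sqrt hd.le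
    have hrr : 0 < rr A B := Real.sqrt_pos.mpr hd
    have hprod : x1 A B * x2 A B = A := by unfold x1 x2; linear_combination (-1/4) * hsq
    have hprod' : (1 - x1 A B) * (1 - x2 A B) = B := by
      unfold x1 x2; linear_combination (-1/4) * hsq
    have hlt : x1 A B < x2 A B := by unfold x1 x2; linarith
    have hA1 : A < 1 := by
      rw [hA]; exact pow_lt_one₀ hr.le (by linarith) two_ne_zero
    have hB1 : B < 1 := by
      rw [hB]; exact pow_lt_one₀ hs.le (by linarith) two_ne_zero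
    have hx2 : 0 < x2 A B := by
      have : 0 < 1 + A - B := by linarith
      unfold x2; linarith
    have hx1 : 0 < x1 A B := by
      by_contra hc
      push Not at hc
      have := mul_nonpos_of_nonpos_of_nonneg hc hx2.le
      linarith
    have h1x : 0 < 1 - x1 A B := by
      have : 0 < 1 - A + B := by linarith
      unfold x1; linarith
    have hx2' : x2 A B < 1 := by
      by_contra hc
      push Not at hc
      have := mul_nonpos_of_nonneg_of_nonpos h1x.le (by linarith : 1 - x2 A B ≤ 0)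
      linarith
    have hdx : 0 < x2 A B - x1 A B := by linarith
    have hpi := Real.pi_pos
    refine ⟨x1 A B, x2 A B, hx1, hlt, hx2', hprod, hprod', f,
      2 * (α+γ+β) / (3 * Real.pi) * Real.sqrt (x2 A B - x1 A B) / (x1 A B * (1 - x1 A B)),
      ⟨hf.holo, hf.bij, hf.cont, hf.leftWall, hf.innerWall, hf.corner, hf.ledge,
        hf.corner', hf.innerWall', hf.rightWall⟩, ?_, hL _ _ rfl rfl, ?_⟩
    · have := Real.sqrt_pos.mpr hdx
      positivity
    · intro K δ a m b hδ hδ0 ha hm hb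
      have h := hRP α γ β K hα hγ hβ δ a m b hδ hδ0 ha hm hb
      have hx0 : x1 A B * (1 - x1 A B) ≠ 0 := (mul_pos hx1 h1x).ne'
      have e1 : 2 * (α+γ+β) / (3 * Real.pi) * Real.sqrt (x2 A B - x1 A B) /
          (x1 A B * (1 - x1 A B)) * (x1 A B * (1 - x1 A B)) =
          (2 / (3 * Real.pi)) * (α+γ+β) * Real.sqrt (x2 A B - x1 A B) := by
        rw [div_mul_cancel₀ _ hx0]; ring
      have e2 : ((2 / (3 * Real.pi)) * (α+γ+β) * Real.sqrt (x2 A B - x1 A B))^(-(2:ℝ)/3) =
          (2 / (3 * Real.pi))^(-(2:ℝ)/3) * (α+γ+β)^(-(2:ℝ)/3) *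
            (x2 A B - x1 A B)^(-(1:ℝ)/3) := by
        rw [Real.mul_rpow (by positivity) (Real.sqrt_nonneg _), Real.mul_rpow (by positivity) hN.le,
          Real.sqrt_eq_rpow, ← Real.rpow_mul hdx.le]
        norm_num
      have e3 : (2 / (3 * Real.pi))^((2:ℝ)/3) * (2 / (3 * Real.pi))^(-(2:ℝ)/3) = 1 := by
        rw [← Real.rpow_add (by positivity)]
        norm_num
      have e4 : cR * (2 / (3 * Real.pi))^((2:ℝ)/3) *
          ((2 / (3 * Real.pi))^(-(2:ℝ)/3) * (α+γ+β)^(-(2:ℝ)/3) *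
            (x2 A B - x1 A B)^(-(1:ℝ)/3)) =
          Pool.Agent.NH38.Fork.cR * (x2 A B - x1 A B)^(-(1:ℝ)/3) * (α+γ+β)^(-(2:ℝ)/3) := by
        have : cR = Pool.Agent.NH38.Fork.cR := rfl
        rw [this]
        calc _ = Pool.Agent.NH38.Fork.cR * (x2 A B - x1 A B)^(-(1:ℝ)/3) * (α+γ+β)^(-(2:ℝ)/3) *
              ((2 / (3 * Real.pi))^((2:ℝ)/3) * (2 / (3 * Real.pi))^(-(2:ℝ)/3)) := by ring
          _ = _ := by rw [e3, mul_one]
      rw [e1, e2, e4]
      exact h
  · intro a γ β ha hγ hβ δ m b hδ hδ0 hm hb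
    have h := t_OneP a_ExactG (t_OneG t_MJ t_pos t_vvA t_ME t_svA a_FGle) a γ β ha hγ hβ δ m b
      hδ hδ0 hm hb
    have e : (((sv a).coeff 0 : ℚ) : ℝ) = 1 + ∏ i ∈ Finset.range a, (3 * (i:ℝ) + 4) / (3 * i + 2) := by
      rw [(sv_coeff_zero a).1]
      unfold kap
      push_cast
      congr 1
      refine Finset.prod_congr rfl fun i _ => ?_
      have h1 : ((i:ℝ) + 2/3) ≠ 0 := by positivity
      have h2 : (3 * (i:ℝ) + 2) ≠ 0 := by positivity
      field_simp
    rw [← e]
    exact h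

end Pool.Agent.Results.MP_35f495_pr.CardySharpRate
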