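import Pool.Agent.NH38.Step.Trunc

/-!
Critical bond percolation on `ℤ²` (`p = 1/2`): Cardy's formula, for every cross-ratio, in the step
channels (a half-infinite strip of width `α` on top of a half-infinite strip of width `α + β`, flush
on the left), together with their conformal maps, and in bounded step domains up to an explicit error
exponentially small in the height.

Coordinates: the vertex `(u,v)` of `ℤ²` at mesh `δ` sits at `X + iY`, `X = δ (u - v)`,
`Y = δ (u + v)` (rotation by 45 degrees).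
-/

namespace Pool.Agent.Results.MP_35f495_pr.CardyStepChannels

open MeasureTheory Filter Topology Set

/-- edges of `ℤ²`: `(u,v,false)` joins `(u,v)` and `(u+1,v)`; `(u,v,true)` joins `(u,v)` and
`(u,v+1)`. -/
abbrev Edge := ℤ × ℤ × Bool

/-- configurations (`true` = open) -/
abbrev Conf := Edge → Bool

/-- `x` and `y` are the two ends of an open edge -/
def OpenAdj (ω : Conf) (x y : ℤ × ℤ) : Prop :=
  (y = (x.1 + 1, x.2) ∧ ω (x.1, x.2, false) = true) ∨
  (x = (y.1 + 1, y.2) ∧ ω (y.1, y.2, false) = true) ∨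
  (y = (x.1, x.2 + 1) ∧ ω (x.1, x.2, true) = true) ∨
  (x = (y.1, y.2 + 1) ∧ ω (y.1, y.2, true) = true)

/-- bond percolation at `p = 1/2`: independent fair coins on the edges -/
noncomputable def perc : Measure Conf :=
  Measure.infinitePi (fun _ : Edge => (PMF.uniformOfFintype Bool).toMeasure)

/-- The column of the vertex `(u,v)` is `u - v`, its height is `u + v`. Open edges of the step
channel: both ends have their column in `[-a, b]`; the edges with both ends at height `≥ 0` and an
end in a column `> 0` are removed. -/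
def SAdj (a b : ℕ) (ω : Conf) (x y : ℤ × ℤ) : Prop :=
  OpenAdj ω x y ∧ -(a:ℤ) ≤ x.1 - x.2 ∧ x.1 - x.2 ≤ b ∧ -(a:ℤ) ≤ y.1 - y.2 ∧ y.1 - y.2 ≤ b ∧
    ¬ (0 ≤ x.1 + x.2 ∧ 0 ≤ y.1 + y.2 ∧ (0 < x.1 - x.2 ∨ 0 < y.1 - y.2))

/-- There is an open path of the step channel from a vertex of the right wall of the upper arm
(column `0`, height `≥ 0`) to a vertex of the right wall of the lower arm (column `b`). -/
def Cross (a b : ℕ) : Set Conf :=
  {ω | ∃ x y : ℤ × ℤ, x.1 - x.2 = 0 ∧ 0 ≤ x.1 + x.2 ∧ y.1 - y.2 = b ∧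
    Relation.ReflTransGen (SAdj a b ω) x y}

/-- The same in the bounded step domain (all heights in `[-H,H]`). -/
def CrossH (a b H : ℕ) : Set Conf :=
  {ω | ∃ x y : ℤ × ℤ, x.1 - x.2 = 0 ∧ 0 ≤ x.1 + x.2 ∧ x.1 + x.2 ≤ H ∧ y.1 - y.2 = b ∧
    Relation.ReflTransGen (fun p r => SAdj a b ω p r ∧ |p.1 + p.2| ≤ H ∧ |r.1 + r.2| ≤ H) x y}

/-- Cardy's function: the normalised primitive of `(t(1-t))^(-2/3)` -/
noncomputable def cardy (x : ℝ) : ℝ :=
  (∫ t in (0:ℝ)..x, (t*(1-t))^(-(2:ℝ)/3)) / ∫ t in (0:ℝ)..1, (t*(1-t))^(-(2:ℝ)/3)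

/-- the step channel `{-α < X < β, Y < 0} ∪ {-α < X < 0}` -/
def Dom (α β : ℝ) : Set ℂ := {w | -α < w.re ∧ w.re < β ∧ (0 ≤ w.re → w.im < 0)}

/-- `f` is an orientation reversing conformal map of the upper half-plane onto the step channel,
with the boundary correspondence: left wall, right wall of the upper arm, inner corner, ledge,
outer corner, right wall of the lower arm = `(-∞,0)`, `(0,x)`, `x`, `(x,1)`, `1`, `(1,∞)`
(`0` and `∞` correspond to the upper and the lower end). -/
structure Uniformizes (α β x : ℝ) (f : ℂ → ℂ) : Prop where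
  /-- the complex conjugate of `f` is holomorphic in the upper half-plane -/
  holo : DifferentiableOn ℂ (fun z => (starRingEnd ℂ) (f z)) {z | 0 < z.im}
  /-- `f` is a bijection of the upper half-plane onto the step channel -/
  bij : BijOn f {z | 0 < z.im} (Dom α β)
  /-- `f` is continuous up to the boundary (without `0`) -/
  cont : ContinuousOn f {z : ℂ | 0 ≤ z.im ∧ z ≠ 0}
  /-- `(-∞,0)` is mapped to the left wall -/
  leftWall : BijOn (fun t : ℝ => f t) (Iio 0) {w | w.re = -α}
  /-- `(0,x)` is mapped to the right wall of the upper arm -/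
  innerWall : BijOn (fun t : ℝ => f t) (Ioo 0 x) {w | w.re = 0 ∧ 0 < w.im}
  /-- `x` is mapped to the inner corner -/
  corner : f (x : ℂ) = 0
  /-- `(x,1)` is mapped to the ledge -/
  ledge : BijOn (fun t : ℝ => f t) (Ioo x 1) {w | w.im = 0 ∧ 0 < w.re ∧ w.re < β}
  /-- `1` is mapped to the outer corner -/
  corner' : f 1 = (β : ℂ)
  /-- `(1,∞)` is mapped to the right wall of the lower arm -/
  rightWall : BijOn (fun t : ℝ => f t) (Ioi 1) {w | w.re = β ∧ w.im < 0}

/-- Cardy's formula in the step channels. `α, β > 0` are the width of the upper arm and the width of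
the ledge; the conformal cross-ratio of (right wall of the upper arm, right wall of the lower arm) is
`x = (α/(α+β))²`.
(1) the conformal map of the domain; (2) the crossing probability tends to `cardy x` as the mesh `δ`
tends to `0`; (3) bounded step domains, for all `a` and all `b ≥ 1`; (4) their scaling limit. -/
theorem result :
    (∀ α β : ℝ, 0 < α → 0 < β →
      (∃ f : ℂ → ℂ, Uniformizes α β ((α / (α + β)) ^ 2) f) ∧
      ∀ (δ : ℕ → ℝ) (a b : ℕ → ℕ), (∀ n, 0 < δ n) → Tendsto δ atTop (𝓝 0) →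
        Tendsto (fun n => δ n * a n) atTop (𝓝 α) → Tendsto (fun n => δ n * b n) atTop (𝓝 β) →
        Tendsto (fun n => perc.real (Cross (a n) (b n))) atTop (𝓝 (cardy ((α / (α + β)) ^ 2)))) ∧
    (∀ a b H : ℕ, 1 ≤ b →
      |perc.real (CrossH a b H) - perc.real (Cross a b)| ≤
        2 * (1 - (1/2 : ℝ)^188)^(H / (100 * (a + b)))) ∧
    (∀ α β : ℝ, 0 < α → 0 < β →
      ∀ (δ : ℕ → ℝ) (a b H : ℕ → ℕ), (∀ n, 0 < δ n) → Tendsto δ atTop (𝓝 0) →
        Tendsto (fun n => δ n * a n) atTop (𝓝 α) → Tendsto (fun n => δ n * b n) atTop (𝓝 β) →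
        Tendsto (fun n => δ n * H n) atTop atTop →
        Tendsto (fun n => perc.real (CrossH (a n) (b n) (H n))) atTop
          (𝓝 (cardy ((α / (α + β)) ^ 2)))) := by
  have key : ∀ a b H : ℕ, 1 ≤ b →
      |perc.real (CrossH a b H) - perc.real (Cross a b)| ≤
        2 * (1 - (1/2 : ℝ)^188)^(H / (100 * (a + b))) :=
    fun a b H hb => Pool.Agent.NH38.Step.rect_channel hb H
  refine ⟨fun α β hα hβ => ⟨?_, Pool.Agent.NH38.Step.scaling α β hα hβ⟩, key, ?_⟩
  · obtain ⟨f, hf⟩ := Pool.Agent.NH38.Step.t_F α β hα hβ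
    exact ⟨f, ⟨hf.holo, hf.bij, hf.cont, hf.leftWall, hf.innerWall, hf.corner, hf.ledge,
      hf.corner', hf.rightWall⟩⟩
  · intro α β hα hβ δ a b H hδ hδ0 ha hb hH
    have h1 := Pool.Agent.NH38.Step.scaling α β hα hβ δ a b hδ hδ0 ha hb
    have hinv : Tendsto (fun n => (δ n)⁻¹) atTop atTop :=
      (tendsto_nhdsWithin_iff.mpr ⟨hδ0, Eventually.of_forall hδ⟩).inv_tendsto_nhdsGT_zero
    have eb : ∀ᶠ n in atTop, 1 ≤ b n := by
      have : Tendsto (fun n => (b n : ℝ)) atTop atTop := by
        refine (hinv.atTop_mul_pos hβ hb).congr fun n => ?_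
        rw [← mul_assoc, inv_mul_cancel₀ (hδ n).ne', one_mul]
      filter_upwards [this.eventually_ge_atTop 1] with n hn
      exact_mod_cast hn
    -- the ratio `H / (100 (a+b))` tends to infinity
    have hr : Tendsto (fun n => H n / (100 * (a n + b n))) atTop atTop := by
      have hs : Tendsto (fun n => δ n * ((a n : ℝ) + b n)) atTop (𝓝 (α + β)) :=
        (ha.add hb).congr fun n => by ring
      have hp : ∀ᶠ n in atTop, δ n * ((a n : ℝ) + b n) < α + β + 1 :=
        hs.eventually_lt_const (by linarith)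
      rw [tendsto_atTop]
      intro M
      filter_upwards [hp, eb, hH.eventually_ge_atTop (100 * (M:ℝ) * (α + β + 1))] with n h1 h2 h3
      have hM : (0:ℝ) ≤ M := Nat.cast_nonneg M
      rw [Nat.le_div_iff_mul_le (by omega)]
      have h4 : δ n * ((M:ℝ) * (100 * ((a n : ℝ) + b n))) ≤ δ n * H n := by
        have : δ n * ((M:ℝ) * (100 * ((a n : ℝ) + b n))) =
          100 * (M:ℝ) * (δ n * ((a n : ℝ) + b n)) := by ring
        rw [this]
        exact (mul_le_mul_of_nonneg_left h1.le (by positivity)).trans h3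
      have h5 := le_of_mul_le_mul_left h4 (hδ n)
      exact_mod_cast h5
    have hz : Tendsto (fun n => 2 * (1 - (1/2 : ℝ)^188)^(H n / (100 * (a n + b n)))) atTop
        (𝓝 0) := by
      have h188 : ((1:ℝ)/2)^188 < 1 := pow_lt_one₀ (by norm_num) (by norm_num) (by norm_num)
      have h188' : (0:ℝ) < (1/2:ℝ)^188 := by positivity
      have := ((tendsto_pow_atTop_nhds_zero_of_lt_one (r := 1 - (1/2 : ℝ)^188) (by linarith)
        (by linarith)).comp hr).const_mul 2
      simpa using this
    have hd : Tendsto (fun n => perc.real (CrossH (a n) (b n) (H n)) -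
        perc.real (Cross (a n) (b n))) atTop (𝓝 0) := by
      apply squeeze_zero_norm' _ hz
      filter_upwards [eb] with n hn
      exact key _ _ _ hn
    have := h1.add hd
    rw [add_zero] at this
    refine this.congr fun n => ?_
    change Pool.Agent.H988R2.Perc.perc.real (Pool.Agent.NH38.Step.Cross (a n) (b n)) +
      (perc.real (CrossH (a n) (b n) (H n)) -
        Pool.Agent.H988R2.Perc.perc.real (Pool.Agent.NH38.Step.Cross (a n) (b n))) = _
    ring

end Pool.Agent.Results.MP_35f495_pr.CardyStepChannels
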