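import Mathlib
import Pool.Agent.NH41.CK.FIN
import Pool.Agent.NH41.CK.COV
import Pool.Agent.Y989.SD.Fin

/-!
Critical bond percolation on `ε ℤ²` (`p = 1/2`) in an arbitrary Jordan domain with `C^(1,α)`
boundary: the probability that `k` given vertices are connected to each other inside the domain, for
every `k` and all positions of the vertices (in the bulk or near the boundary, close to each other
or not), up to a factor `C ^ k`, where `C` depends only on the domain. The answer is conformally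
covariant: it is the product of the `(ε / CR) ^ (5/48)`, where `CR` is the conformal radius of the
domain seen from the point, and of a universal function of the hyperbolic distances between the
points.
-/

set_option autoImplicit false

namespace Pool.Agent.Results.MP_35f495_pr.SmoothDomainConnections

open MeasureTheory Finset

/-- The square lattice: two points of `ℤ²` are adjacent when they differ by one in exactly one
coordinate. -/
def Z2 : SimpleGraph (ℤ × ℤ) where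
  Adj u v := |u.1 - v.1| + |u.2 - v.2| = 1
  symm := ⟨fun u v h => by rw [abs_sub_comm v.1, abs_sub_comm v.2]; exact h⟩
  loopless := ⟨fun u h => by simp at h⟩

/-- Critical bond percolation: every edge of the square lattice is open (`true`) with
probability `1/2`, independently of the other edges. -/
noncomputable def crit : Measure (Z2.edgeSet → Bool) :=
  Measure.infinitePi (fun _ => ProbabilityTheory.bernoulliMeasure true false
    ⟨1/2, by norm_num, by norm_num⟩)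

/-- The position of the vertex `v` of the lattice `ε ℤ²` in the plane. -/
noncomputable def pos (ε : ℝ) (v : ℤ × ℤ) : ℂ := ⟨ε * v.1, ε * v.2⟩

/-- The graph of the open edges of `ε ℤ²` with both endpoints in `D`. -/
def openGraph (ε : ℝ) (D : Set ℂ) (ω : Z2.edgeSet → Bool) : SimpleGraph (ℤ × ℤ) :=
  SimpleGraph.fromEdgeSet {e | (∃ h : e ∈ Z2.edgeSet, ω ⟨e, h⟩ = true) ∧ ∀ v ∈ e, pos ε v ∈ D}

/-- The probability that the vertices of `X` are connected to each other by open paths of `ε ℤ²`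
in `D`. -/
noncomputable def conn (ε : ℝ) (D : Set ℂ) (X : Finset (ℤ × ℤ)) : ℝ :=
  crit.real {ω | ∀ u ∈ X, ∀ v ∈ X, (openGraph ε D ω).Reachable u v}

/-- The closed unit disc. -/
def disc : Set ℂ := Metric.closedBall 0 1

/-- `f` parametrizes a Jordan domain with `C^(1,α)` boundary, `0 < α ≤ 1`: it is injective and
continuous on the closed unit disc, conformal in the open unit disc, and its derivative extends to a
Hölder continuous function `g` without zeros on the closed unit disc. (By the theorem of Kellogg and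
Warschawski the Riemann maps onto Jordan domains with `C^(1,α)` boundary, `0 < α < 1`, have this
property.) -/
def Smooth (f : ℂ → ℂ) : Prop :=
  Set.InjOn f disc ∧ ContinuousOn f disc ∧ ∃ (g : ℂ → ℂ) (M α : ℝ), 0 < α ∧ α ≤ 1 ∧
    (∀ z, ‖z‖ < 1 → HasDerivAt f (g z) z) ∧ (∀ z ∈ disc, g z ≠ 0) ∧
    ∀ z ∈ disc, ∀ w ∈ disc, ‖g z - g w‖ ≤ M * ‖z - w‖ ^ α

/-- The open domain parametrized by `f`. -/
def dom (f : ℂ → ℂ) : Set ℂ := f '' Metric.ball 0 1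

/-- The conformal radius of the domain of `f`, seen from the point `f ζ`. -/
noncomputable def CR (f : ℂ → ℂ) (ζ : ℂ) : ℝ := ‖deriv f ζ‖ * (1 - ‖ζ‖ ^ 2)

/-- The pseudo-hyperbolic distance between two points of the open unit disc. -/
noncomputable def tau (ζ ξ : ℂ) : ℝ := ‖(ζ - ξ) / (1 - (starRingEnd ℂ) ξ * ζ)‖

/-- The universal function of two points of the disc. -/
noncomputable def H (ζ ξ : ℂ) : ℝ :=
  tau ζ ξ ^ (-(5 / 24) : ℝ) * (1 - tau ζ ξ ^ 2) ^ (1 / 3 : ℝ)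

/-- The universal function of `k` points of the disc: the product, over the points `ζ j` after the
first two, of the maximum over the pairs `ζ i, ζ l` of previous points of
`(H (ζ j) (ζ i) * H (ζ j) (ζ l) / H (ζ i) (ζ l)) ^ (1/2)`, times `H (ζ 0) (ζ 1)`. -/
noncomputable def Phi (ζ : ℕ → ℂ) (k : ℕ) : ℝ :=
  H (ζ 0) (ζ 1) * ∏ j ∈ Ico 2 k, ⨆ p : {p : Fin j × Fin j // p.1 < p.2},
    Real.sqrt (H (ζ j) (ζ p.1.1) * H (ζ j) (ζ p.1.2) / H (ζ p.1.1) (ζ p.1.2))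

/-- The `k`-point function of the domain of `f`, at mesh `ε` and at the points `f (ζ i)`. -/
noncomputable def F (f : ℂ → ℂ) (ε : ℝ) (ζ : ℕ → ℂ) (k : ℕ) : ℝ :=
  (∏ i ∈ range k, (ε / CR f (ζ i)) ^ (5 / 48 : ℝ)) * Phi ζ k

/-- `φ` is a conformal map from `D` onto `D'`: it is holomorphic on `D` and it has a holomorphic
inverse `ψ` from `D'` to `D`. -/
def Conformal (D D' : Set ℂ) (φ : ℂ → ℂ) : Prop :=
  DifferentiableOn ℂ φ D ∧ Set.MapsTo φ D D' ∧ ∃ ψ : ℂ → ℂ, DifferentiableOn ℂ ψ D' ∧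
    Set.MapsTo ψ D' D ∧ (∀ z ∈ D, ψ (φ z) = z) ∧ ∀ w ∈ D', φ (ψ w) = w

open Y989.SD in
theorem openGraph_adj {f : ℂ → ℂ} {ε : ℝ} (h : ∀ v, v ∈ TD f ε ↔ Y989.SD.pos ε v ∈ f '' Y989.SD.disc)
    (ω : Z2.edgeSet → Bool) (u v : ℤ × ℤ) :
    (openGraph ε (f '' disc) ω).Adj u v ↔
      H974.Adj (H974.opn ω ∩ TH976.dE (↑(TD f ε) : Set (ℤ × ℤ))) u v := by
  have hs : ∀ w, pos ε w ∈ f '' disc ↔ w ∈ TD f ε := fun w => (h w).symm
  unfold openGraph
  rw [SimpleGraph.fromEdgeSet_adj]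
  constructor
  · rintro ⟨⟨⟨h, hω⟩, hV⟩, hne⟩
    have hadj : (H974.openGraph ω).Adj u v := by
      unfold H974.openGraph
      rw [SimpleGraph.fromEdgeSet_adj]
      exact ⟨⟨h, hω⟩, hne⟩
    obtain ⟨e, he, hcase⟩ := (H974.openGraph_adj ω u v).mp hadj
    have hu : u ∈ TD f ε := (hs u).mp (hV u (Sym2.mem_mk_left u v))
    have hv : v ∈ TD f ε := (hs v).mp (hV v (Sym2.mem_mk_right u v))
    refine ⟨e, ⟨he, ?_⟩, hcase⟩
    rcases hcase with ⟨h1, h2⟩ | ⟨h1, h2⟩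
    · exact ⟨by rw [h1]; exact hu, by rw [h2]; exact hv⟩
    · exact ⟨by rw [h1]; exact hv, by rw [h2]; exact hu⟩
  · rintro ⟨e, ⟨he, hV⟩, hcase⟩
    have hadj : (H974.openGraph ω).Adj u v := (H974.openGraph_adj ω u v).mpr ⟨e, he, hcase⟩
    unfold H974.openGraph at hadj
    rw [SimpleGraph.fromEdgeSet_adj] at hadj
    refine ⟨⟨hadj.1, ?_⟩, hadj.2⟩
    intro w hw
    rw [hs]
    rcases Sym2.mem_iff.mp hw with rfl | rfl
    · rcases hcase with ⟨h1, h2⟩ | ⟨h1, h2⟩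
      · rw [← h1]; exact hV.1
      · rw [← h2]; exact hV.2
    · rcases hcase with ⟨h1, h2⟩ | ⟨h1, h2⟩
      · rw [← h2]; exact hV.2
      · rw [← h1]; exact hV.1

theorem conn_eq {f : ℂ → ℂ} {ε : ℝ}
    (h : ∀ v, v ∈ Y989.SD.TD f ε ↔ Y989.SD.pos ε v ∈ f '' Y989.SD.disc) (X : Finset (ℤ × ℤ)) :
    conn ε (f '' disc) X = TH976.PD (↑(Y989.SD.TD f ε) : Set (ℤ × ℤ)) (H362P.Cn X) := by
  have h0 : conn ε (f '' disc) X = (H974.bondLaw H974.hlf).real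
      {ω | ∀ u ∈ X, ∀ v ∈ X, (openGraph ε (f '' disc) ω).Reachable u v} := rfl
  have key : ∀ (ω : Z2.edgeSet → Bool) (u v : ℤ × ℤ), (openGraph ε (f '' disc) ω).Reachable u v ↔
      H974.Reach (H974.opn ω ∩ TH976.dE (↑(Y989.SD.TD f ε) : Set (ℤ × ℤ))) u v := by
    intro ω u v
    rw [SimpleGraph.reachable_iff_reflTransGen]
    have : (openGraph ε (f '' disc) ω).Adj =
        H974.Adj (H974.opn ω ∩ TH976.dE (↑(Y989.SD.TD f ε) : Set (ℤ × ℤ))) := by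
      funext u v
      exact propext (openGraph_adj h ω u v)
    rw [this]
    rfl
  rw [h0]
  unfold TH976.PD H362P.Cn
  congr 1
  ext ω
  constructor
  · intro h u hu v hv
    exact (key ω u v).mp (h u hu v hv)
  · intro h u hu v hv
    exact (key ω u v).mpr (h u hu v hv)

open NH41.CK (cr gg)
open NH41.CK.COV (Par hh)

theorem mem_disc {z : ℂ} (h : ‖z‖ < 1) : z ∈ disc := by
  unfold disc
  rw [Metric.mem_closedBall, dist_zero_right]
  exact h.le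

/-- the data of a parametrization -/
theorem data {f : ℂ → ℂ} (hf : Smooth f) : ∃ g : ℂ → ℂ, Par f g ∧
    (∀ ζ : ℂ, ‖ζ‖ < 1 → cr g ζ = CR f ζ) ∧ ∃ C e0 : ℝ, 1 ≤ C ∧ 0 < e0 ∧
    ∀ ε : ℝ, 0 < ε → ε ≤ e0 → ∀ (n : ℕ) (x : ℕ → ℤ × ℤ) (ζ : ℕ → ℂ), 2 ≤ n →
      (∀ i < n, ‖ζ i‖ < 1 ∧ f (ζ i) = Y989.SD.pos ε (x i) ∧ ε ≤ cr g (ζ i)) →
      (∀ i < n, ∀ j < n, i ≠ j → x i ≠ x j) →
        TH976.Cmp (C ^ n) (conn ε (f '' disc) ((range n).image x))
          ((ε ^ (5 / 48 : ℝ)) ^ n * TH976.kFun (gg g) ζ n) := by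
  obtain ⟨hi, hc, g, M, α, ha0, ha1, hd, hn, hg⟩ := hf
  have hW : Y989.SD.SmW f g M α := Y989.SD.smW_of ha0 ha1 hi hc hd hn hg
  refine ⟨g, ⟨hi.mono Metric.ball_subset_closedBall, hd, fun z hz => hn z (mem_disc hz)⟩, ?_, ?_⟩
  · intro ζ hζ
    unfold cr CR
    rw [(hd ζ hζ).deriv]
  · obtain ⟨C, e0, hC, he0, h⟩ := NH41.CK.FIN.main hW
    refine ⟨C, e0, hC, he0, ?_⟩
    intro ε hε hε' n x ζ hn hx hdist
    obtain ⟨h1, h2⟩ := h ε hε hε'
    rw [conn_eq h1]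
    exact h2 n x ζ hn hx hdist

theorem F_eq {f g : ℂ → ℂ} (h : Par f g) (hcr : ∀ ζ : ℂ, ‖ζ‖ < 1 → cr g ζ = CR f ζ) {ε : ℝ}
    (hε : 0 < ε) {ζ : ℕ → ℂ} {k : ℕ} (hk : 2 ≤ k) (hζ : ∀ i < k, ‖ζ i‖ < 1) :
    (ε ^ (5 / 48 : ℝ)) ^ k * TH976.kFun (gg g) ζ k = F f ε ζ k := by
  rw [NH41.CK.COV.kFun_gg h hk hζ, ← mul_assoc]
  have e1 : (ε ^ (5 / 48 : ℝ)) ^ k * ∏ i ∈ range k, cr g (ζ i) ^ (-(5 / 48) : ℝ) =
      ∏ i ∈ range k, (ε / CR f (ζ i)) ^ (5 / 48 : ℝ) := by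
    rw [← Finset.card_range k, ← Finset.prod_const, Finset.card_range, ← Finset.prod_mul_distrib]
    apply Finset.prod_congr rfl
    intro i hi
    rw [Finset.mem_range] at hi
    have p1 := NH41.CK.COV.cr_pos h (hζ i hi)
    rw [← hcr _ (hζ i hi), Real.div_rpow hε.le p1.le, Real.rpow_neg p1.le]
    rfl
  rw [e1]
  rfl

theorem cmp_iff {C a b : ℝ} (h : TH976.Cmp C a b) : C⁻¹ * b ≤ a ∧ a ≤ C * b := by
  have h0 := h.k0
  refine ⟨?_, h.l⟩
  rw [inv_mul_le_iff₀ h0]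
  exact h.r

/-- **The connection probabilities of critical bond percolation on `ε ℤ²` in all `C^(1,α)` Jordan
domains are conformally covariant, up to constants.**
(1) For every domain (parametrized by `f`) there are `C` and `ε₀` such that for every mesh `ε ≤ ε₀`
and every `k ≥ 2` the probability that `k` distinct vertices at the positions `f (ζ i)` are
connected inside the domain is `∏ (ε / CR f (ζ i)) ^ (5/48) * Phi ζ k` up to a factor `C ^ k`,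
whatever the positions, as soon as the conformal radii are at least `ε` (which is true when the
distances to the boundary are at least `ε`).
(2) `CR` is exactly covariant and `Phi` is exactly invariant under all conformal maps between the
domains.
(3) Hence, for all distinct points `z i` of a first domain and every conformal map `φ` onto a second
one, the two probabilities for vertices at distance at most two meshes from the `z i`, respectively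
the `φ (z i)`, in the second domain possibly with another mesh, agree up to the factor
`∏ ‖φ' (z i)‖ ^ (5/48) * (ε / ε') ^ (5 k / 48)` and a factor `C ^ k`, for all small meshes `ε`,
`ε'`; `C` depends only on the two domains. -/
theorem result :
    (∀ f : ℂ → ℂ, Smooth f → ∃ C ε₀ : ℝ, 1 ≤ C ∧ 0 < ε₀ ∧ ∀ ε : ℝ, 0 < ε → ε ≤ ε₀ →
      ∀ (k : ℕ) (x : ℕ → ℤ × ℤ) (ζ : ℕ → ℂ), 2 ≤ k →
      (∀ i < k, ‖ζ i‖ < 1 ∧ f (ζ i) = pos ε (x i) ∧ ε ≤ CR f (ζ i)) →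
      (∀ i < k, ∀ j < k, i ≠ j → x i ≠ x j) →
      (C ^ k)⁻¹ * F f ε ζ k ≤ conn ε (f '' disc) ((range k).image x) ∧
      conn ε (f '' disc) ((range k).image x) ≤ C ^ k * F f ε ζ k) ∧
    (∀ f₁ f₂ φ : ℂ → ℂ, Smooth f₁ → Smooth f₂ → Conformal (dom f₁) (dom f₂) φ →
      (∀ ζ ξ : ℂ, ‖ζ‖ < 1 → ‖ξ‖ < 1 → φ (f₁ ζ) = f₂ ξ →
        CR f₂ ξ = ‖deriv φ (f₁ ζ)‖ * CR f₁ ζ) ∧
      ∀ (k : ℕ) (ζ ξ : ℕ → ℂ), 2 ≤ k →
        (∀ i < k, ‖ζ i‖ < 1 ∧ ‖ξ i‖ < 1 ∧ φ (f₁ (ζ i)) = f₂ (ξ i)) → Phi ξ k = Phi ζ k) ∧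
    (∀ f₁ f₂ : ℂ → ℂ, Smooth f₁ → Smooth f₂ → ∃ C : ℝ, 1 ≤ C ∧
      ∀ φ : ℂ → ℂ, Conformal (dom f₁) (dom f₂) φ → ∀ (k : ℕ) (z : ℕ → ℂ), 2 ≤ k →
      (∀ i < k, z i ∈ dom f₁) → (∀ i < k, ∀ j < k, i ≠ j → z i ≠ z j) →
      ∃ ε₁ : ℝ, 0 < ε₁ ∧ ∀ ε ε' : ℝ, 0 < ε → ε < ε₁ → 0 < ε' → ε' < ε₁ → ∀ x y : ℕ → ℤ × ℤ,
        (∀ i < k, ‖pos ε (x i) - z i‖ ≤ 2 * ε) →
        (∀ i < k, ‖pos ε' (y i) - φ (z i)‖ ≤ 2 * ε') →
        (C ^ k)⁻¹ * (((ε / ε') ^ (5 / 48 : ℝ)) ^ k *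
          (∏ i ∈ range k, ‖deriv φ (z i)‖ ^ (5 / 48 : ℝ)) *
            conn ε' (f₂ '' disc) ((range k).image y)) ≤
          conn ε (f₁ '' disc) ((range k).image x) ∧
        conn ε (f₁ '' disc) ((range k).image x) ≤ C ^ k * (((ε / ε') ^ (5 / 48 : ℝ)) ^ k *
          (∏ i ∈ range k, ‖deriv φ (z i)‖ ^ (5 / 48 : ℝ)) *
            conn ε' (f₂ '' disc) ((range k).image y))) := by
  refine ⟨?_, ?_, ?_⟩
  · intro f hf
    obtain ⟨g, hp, hcr, C, e0, hC, he0, h⟩ := data hf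
    refine ⟨C, e0, hC, he0, ?_⟩
    intro ε hε hε' k x ζ hk hx hd
    have t := h ε hε hε' k x ζ hk (fun i hi => by
      obtain ⟨h1, h2, h3⟩ := hx i hi
      exact ⟨h1, h2, by rw [hcr _ h1]; exact h3⟩) hd
    rw [F_eq hp hcr hε hk (fun i hi => (hx i hi).1)] at t
    exact cmp_iff t
  · intro f₁ f₂ φ hf₁ hf₂ hφ
    obtain ⟨g₁, hp₁, hcr₁, -⟩ := data hf₁
    obtain ⟨g₂, hp₂, hcr₂, -⟩ := data hf₂
    obtain ⟨c1, c2⟩ := NH41.CK.COV.cov hp₁ hp₂ hφ
    constructor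
    · intro ζ ξ hζ hξ h
      have := c1 ζ ξ hζ hξ h
      rwa [hcr₁ ζ hζ, hcr₂ ξ hξ] at this
    · intro k ζ ξ hk h
      refine NH41.CK.COV.kFun_hh_congr (ζ := ξ) (ξ := ζ) hk ?_
      intro i hi j hj _
      obtain ⟨a1, a2, a3⟩ := h i hi
      obtain ⟨b1, b2, b3⟩ := h j hj
      have := c2 (ζ i) (ζ j) (ξ i) (ξ j) a1 b1 a2 b2 a3 b3
      unfold hh
      rw [this]
  · intro f₁ f₂ hf₁ hf₂
    obtain ⟨g₁, hp₁, -, C₁, e₁, hC₁, he₁, h₁⟩ := data hf₁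
    obtain ⟨g₂, hp₂, -, C₂, e₂, hC₂, he₂, h₂⟩ := data hf₂
    have q1 : (1 : ℝ) ≤ 8 * C₁ := by linarith
    have q2 : (1 : ℝ) ≤ 8 * C₂ := by linarith
    refine ⟨8 * C₁ * (8 * C₂), TH976.Cmp.one_le_mul' q1 q2, ?_⟩
    intro φ hφ k z hk hz hd
    have hz' : ∀ i < k, φ (z i) ∈ dom f₂ := fun i hi => hφ.2.1 (hz i hi)
    have hd' : ∀ i < k, ∀ j < k, i ≠ j → φ (z i) ≠ φ (z j) := by
      intro i hi j hj hij he
      obtain ⟨-, -, ψ, -, -, h5, -⟩ := hφ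
      apply hd i hi j hj hij
      rw [← h5 _ (hz i hi), he, h5 _ (hz j hj)]
    have l1 := NH41.CK.COV.lim (P := fun ε X => conn ε (f₁ '' disc) X) hp₁ he₁ h₁ hk hz hd
    have l2 := NH41.CK.COV.lim (P := fun ε X => conn ε (f₂ '' disc) X) hp₂ he₂ h₂ hk hz' hd'
    obtain ⟨a, ha, ha'⟩ := mem_nhdsGT_iff_exists_Ioo_subset.mp l1
    obtain ⟨b, hb, hb'⟩ := mem_nhdsGT_iff_exists_Ioo_subset.mp l2
    refine ⟨min a b, lt_min ha hb, ?_⟩
    intro ε ε' hε hε1 hε' hε1' x y hx hy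
    have t1 := ha' ⟨hε, hε1.trans_le (min_le_left _ _)⟩ x hx
    have t2 := hb' ⟨hε', hε1'.trans_le (min_le_right _ _)⟩ y hy
    have t3 := NH41.CK.COV.kFun_conf hp₁ hp₂ hφ hk hz
    rw [t3] at t1
    have J0 : 0 < ∏ i ∈ range k, ‖deriv φ (z i)‖ ^ (5 / 48 : ℝ) := by
      apply Finset.prod_pos
      intro i hi
      have := TH976.Conf.deriv_ne hp₁.isOpen hp₂.isOpen hφ (hz i (Finset.mem_range.mp hi))
      have := norm_pos_iff.mpr this
      positivity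
    have s0 : 0 < ((ε / ε') ^ (5 / 48 : ℝ)) ^ k := by positivity
    have s1 : (ε ^ (5 / 48 : ℝ)) ^ k = ((ε / ε') ^ (5 / 48 : ℝ)) ^ k * (ε' ^ (5 / 48 : ℝ)) ^ k := by
      rw [← mul_pow, Real.div_rpow hε.le hε'.le]
      congr 1
      have : 0 < ε' ^ (5 / 48 : ℝ) := by positivity
      field_simp
    rw [s1] at t1
    have t4 := (TH976.Cmp.refl (mul_pos s0 J0)).mul t2.symm
    have s2 : ((ε / ε') ^ (5 / 48 : ℝ)) ^ k * (ε' ^ (5 / 48 : ℝ)) ^ k *
        ((∏ i ∈ range k, ‖deriv φ (z i)‖ ^ (5 / 48 : ℝ)) *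
          TH976.kFun (gg g₂) (fun i => Par.iv f₂ (φ (z i))) k) =
        ((ε / ε') ^ (5 / 48 : ℝ)) ^ k * (∏ i ∈ range k, ‖deriv φ (z i)‖ ^ (5 / 48 : ℝ)) *
          ((ε' ^ (5 / 48 : ℝ)) ^ k * TH976.kFun (gg g₂) (fun i => Par.iv f₂ (φ (z i))) k) := by
      ring
    rw [s2] at t1
    refine cmp_iff ((t1.trans t4).weaken (le_of_eq ?_))
    rw [mul_pow (8 * C₁) (8 * C₂) k, one_mul]

end Pool.Agent.Results.MP_35f495_pr.SmoothDomainConnections
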